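import Pool.Agent.Y793.Gol.Core

set_option autoImplicit false

namespace Pool.Agent.Y793.Gol

open Finset

/-- `⌊t α^n⌋` as a natural number -/
noncomputable def fl (t α : ℝ) (n : ℕ) : ℕ := ⌊t * α ^ n⌋₊

theorem golden {α : ℝ} (h : (1 + Real.sqrt 5) / 2 ≤ α) : 1 + α ≤ α ^ 2 ∧ 3 / 2 < α := by
  have h5 : Real.sqrt 5 * Real.sqrt 5 = 5 := Real.mul_self_sqrt (by norm_num)
  have h6 : (2 : ℝ) < Real.sqrt 5 := by
    rw [Real.lt_sqrt (by norm_num)]; norm_num
  constructor <;> nlinarith

theorem fl_le {t α : ℝ} (ht : 0 < t) (hα : 0 < α) (n : ℕ) : (fl t α n : ℝ) ≤ t * α ^ n :=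
  Nat.floor_le (by positivity)

theorem lt_fl (t α : ℝ) (n : ℕ) : t * α ^ n < fl t α n + 1 := Nat.lt_floor_add_one _

theorem fl_fib {t α : ℝ} (ht : 0 < t) (hα : 0 < α) (h : 1 + α ≤ α ^ 2) (n : ℕ) :
    fl t α n + fl t α (n + 1) ≤ fl t α (n + 2) := by
  apply Nat.le_floor
  push_cast
  have h1 := fl_le ht hα n
  have h2 := fl_le ht hα (n + 1)
  have h3 : t * α ^ n * (1 + α) ≤ t * α ^ n * α ^ 2 :=
    mul_le_mul_of_nonneg_left h (by positivity)
  have h4 : t * α ^ n * (1 + α) = t * α ^ n + t * α ^ (n + 1) := by ring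
  have h5 : t * α ^ n * α ^ 2 = t * α ^ (n + 2) := by ring
  linarith

theorem fl_mono {t α : ℝ} (ht : 0 < t) (hα : 1 ≤ α) : Monotone (fl t α) := by
  intro m n hmn
  apply Nat.floor_mono
  exact mul_le_mul_of_nonneg_left (pow_le_pow_right₀ hα hmn) ht.le

theorem fl_unb {t α : ℝ} (ht : 0 < t) (hα : 1 < α) (N : ℕ) : ∃ n, N ≤ fl t α n := by
  obtain ⟨n, hn⟩ := pow_unbounded_of_one_lt ((N : ℝ) / t) hα
  refine ⟨n, Nat.le_floor ?_⟩
  rw [div_lt_iff₀ ht] at hn
  linarith

/-- at most one positive value occurs twice, and then this value is `1` -/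
theorem dup {t α : ℝ} (ht : 0 < t) (h32 : 3 / 2 < α) (h : 1 + α ≤ α ^ 2) (n : ℕ) :
    ∑ i ∈ range n, fl t α i = sg (fl t α) n ∨
      (∑ i ∈ range n, fl t α i = sg (fl t α) n + 1 ∧ ∃ k, n = k + 2 ∧ 1 ≤ fl t α k) := by
  have hα : 0 < α := by linarith
  have hm := fl_mono ht (by linarith : 1 ≤ α)
  induction n with
  | zero => left; simp [sg]
  | succ n ih =>
    rw [sum_range_succ]
    by_cases hc : fl t α n ∈ (range n).image (fl t α)
    · have e : sg (fl t α) (n + 1) = sg (fl t α) n := by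
        unfold sg
        rw [range_add_one, image_insert, insert_eq_of_mem hc]
      rw [e]
      rw [mem_image] at hc
      obtain ⟨k, hk, hk2⟩ := hc
      rw [mem_range] at hk
      obtain ⟨n', rfl⟩ : ∃ n', n = n' + 1 := ⟨n - 1, by omega⟩
      have h1 : fl t α k ≤ fl t α n' := hm (by omega)
      have h2 : fl t α n' ≤ fl t α (n' + 1) := hm (by omega)
      have h3 : fl t α n' = fl t α (n' + 1) := by omega
      have h4 : fl t α (n' + 1) ≤ 1 := by
        by_contra hc
        push Not at hc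
        have h5 : (2 : ℝ) ≤ fl t α n' := by
          exact_mod_cast (by omega : 2 ≤ fl t α n')
        have h6 := fl_le ht hα n'
        have h7 := lt_fl t α (n' + 1)
        have h8 : (fl t α n' : ℝ) = fl t α (n' + 1) := by exact_mod_cast h3
        have h9 : t * α ^ (n' + 1) = t * α ^ n' * α := by ring
        rw [h9] at h7
        have h10 : t * α ^ n' * (3 / 2) ≤ t * α ^ n' * α :=
          mul_le_mul_of_nonneg_left h32.le (by positivity)
        linarith
      rcases ih with ih | ⟨ih, k', hk', hk''⟩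
      · rcases Nat.eq_zero_or_pos (fl t α (n' + 1)) with h0 | h0
        · left; omega
        · right
          refine ⟨by omega, n', rfl, by omega⟩
      · exfalso
        have h11 : n' = k' + 1 := by omega
        subst h11
        have := fl_fib ht hα h k'
        have e2 : fl t α (k' + 1 + 1) = fl t α (k' + 2) := rfl
        omega
    · rw [sg_succ_of_notMem hc]
      rcases ih with ih | ⟨ih, k, rfl, hk⟩
      · left; omega
      · right
        refine ⟨by omega, k + 1, rfl, ?_⟩
        have := hm (by omega : k ≤ k + 1)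
        omega

theorem sum_ge {t α : ℝ} (hα : 1 < α) (n : ℕ) :
    t * α ^ n - t - n * (α - 1) ≤ (∑ i ∈ range n, (fl t α i : ℝ)) * (α - 1) := by
  induction n with
  | zero => simp
  | succ n ih =>
    rw [sum_range_succ, add_mul]
    have h1 := lt_fl t α n
    have h2 : (t * α ^ n - 1) * (α - 1) ≤ fl t α n * (α - 1) :=
      mul_le_mul_of_nonneg_right (by linarith) (by linarith)
    push_cast
    have h3 : t * α ^ (n + 1) = t * α ^ n * α := by ring
    rw [h3]
    linarith

/-- for large `n` the condition holds automatically -/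
theorem auto {t α : ℝ} (ht : 0 < t) (h32 : 3 / 2 < α) (h : 1 + α ≤ α ^ 2) (n : ℕ)
    (hn : t + n * (α - 1) ≤ t * α ^ n * (2 - α)) : fl t α n ≤ 1 + sg (fl t α) n := by
  have h1 := sum_ge (t := t) (by linarith : 1 < α) n
  have h2 := fl_le ht (by linarith : 0 < α) n
  have h3 : ∑ i ∈ range n, fl t α i ≤ sg (fl t α) n + 1 := by
    rcases dup ht h32 h n with h | h
    · omega
    · omega
  have h4 : (∑ i ∈ range n, (fl t α i : ℝ)) ≤ sg (fl t α) n + 1 := by exact_mod_cast h3
  have h5 : (∑ i ∈ range n, (fl t α i : ℝ)) * (α - 1) ≤ (sg (fl t α) n + 1) * (α - 1) :=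
    mul_le_mul_of_nonneg_right h4 (by linarith)
  have h6 : t * α ^ n * (α - 1) ≤ (sg (fl t α) n + 1) * (α - 1) := by linarith
  have h7 : t * α ^ n ≤ sg (fl t α) n + 1 := le_of_mul_le_mul_right h6 (by linarith)
  have h8 : (fl t α n : ℝ) ≤ 1 + sg (fl t α) n := by linarith
  exact_mod_cast h8

theorem fin_exc {t α : ℝ} (ht : 0 < t) (h1 : 1 < α) (h2 : α < 2) :
    {n : ℕ | t * α ^ n * (2 - α) < t + n * (α - 1)}.Finite := by
  have h3 : Filter.Tendsto (fun n : ℕ => (n : ℝ) / α ^ n) Filter.atTop (nhds 0) := by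
    simpa using tendsto_pow_const_div_const_pow_of_one_lt 1 h1
  have h4 : Filter.Tendsto (fun n : ℕ => t * (1 / α) ^ n) Filter.atTop (nhds (t * 0)) :=
    (tendsto_pow_atTop_nhds_zero_of_lt_one (by positivity)
      ((div_lt_one (by linarith)).2 h1)).const_mul t
  have h5 := h4.add (h3.mul_const (α - 1))
  have h6 : t * 0 + 0 * (α - 1) < t * (2 - α) := by
    have : 0 < t * (2 - α) := mul_pos ht (by linarith)
    linarith
  have h7 := h5.eventually_lt_const h6
  rw [Filter.eventually_atTop] at h7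
  obtain ⟨N, hN⟩ := h7
  apply (Set.finite_lt_nat N).subset
  intro n hn
  by_contra hc
  simp only [Set.mem_ofPred_eq, not_lt] at hc hn
  have h8 := hN n hc
  have h9 : (0 : ℝ) < α ^ n := by positivity
  have h10 := mul_lt_mul_of_pos_right h8 h9
  have h11 : (t * (1 / α) ^ n + (n : ℝ) / α ^ n * (α - 1)) * α ^ n = t + n * (α - 1) := by
    rw [one_div, inv_pow]
    field_simp
  rw [h11] at h10
  linarith

end Pool.Agent.Y793.Gol
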