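import Mathlib

set_option autoImplicit false

/-! Sequences of naturals with `a (n+2) ≥ a (n+1) + a n`: complete iff every natural number is a sum
of distinct terms iff `a n ≤ 1 +` (sum of the distinct earlier values) for all `n` (helper793). -/

namespace Pool.Agent.Y793.Gol

open Finset

/-- `y` is a sum of distinct values of `a` -/
def Rep (a : ℕ → ℕ) (y : ℕ) : Prop :=
  ∃ s : Finset ℕ, (∀ x ∈ s, ∃ n, x = a n) ∧ ∑ x ∈ s, x = y

/-- the sum of the distinct values among `a 0, …, a (n-1)` -/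
def sg (a : ℕ → ℕ) (n : ℕ) : ℕ := ∑ x ∈ (range n).image a, x

variable {a : ℕ → ℕ}

theorem sg_succ_le (n : ℕ) : sg a (n + 1) ≤ sg a n + a n := by
  unfold sg
  rw [range_add_one, image_insert]
  by_cases h : a n ∈ (range n).image a
  · rw [insert_eq_of_mem h]; omega
  · rw [sum_insert h]; omega

theorem sg_succ_of_notMem {n : ℕ} (h : a n ∉ (range n).image a) :
    sg a (n + 1) = sg a n + a n := by
  unfold sg
  rw [range_add_one, image_insert, sum_insert h]
  omega

theorem mem_of_lt (hm : Monotone a) {x m : ℕ} (hx : ∃ n, x = a n) (h : x < a m) :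
    x ∈ (range m).image a := by
  obtain ⟨n, rfl⟩ := hx
  rw [mem_image]
  refine ⟨n, ?_, rfl⟩
  rw [mem_range]
  by_contra hc
  push Not at hc
  have := hm hc
  omega

theorem start (hm : Monotone a) {m : ℕ} (h : 1 + sg a m < a m) :
    a m - 1 < a m ∧ sg a (m + 1) < (a m - 1) + a (m + 1) ∧ ¬ Rep a (a m - 1) := by
  have h1 := sg_succ_le (a := a) m
  have h2 := hm (Nat.le_succ m)
  refine ⟨by omega, by simp only [Nat.succ_eq_add_one] at h2; omega, ?_⟩
  rintro ⟨s, hs, hsum⟩
  have h3 : s ⊆ (range m).image a := by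
    intro x hx
    apply mem_of_lt hm (hs x hx)
    have : x ≤ ∑ x ∈ s, x := single_le_sum (f := fun x => x) (fun _ _ => Nat.zero_le _) hx
    omega
  have h4 : ∑ x ∈ s, x ≤ sg a m := sum_le_sum_of_subset h3
  omega

theorem chain (hm : Monotone a) (hf : ∀ n, a n + a (n + 1) ≤ a (n + 2)) {m y : ℕ}
    (h1 : y < a m) (h2 : sg a (m + 1) < y + a (m + 1)) (h3 : ¬ Rep a y) :
    y + a (m + 1) < a (m + 2) ∧ sg a (m + 2 + 1) < (y + a (m + 1)) + a (m + 2 + 1) ∧
      ¬ Rep a (y + a (m + 1)) := by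
  have e1 := hf m
  have e2 := hf (m + 1)
  have e3 := sg_succ_le (a := a) (m + 1)
  have e4 := sg_succ_le (a := a) (m + 2)
  refine ⟨by omega, ?_, ?_⟩
  · have e5 : a (m + 1 + 2) = a (m + 2 + 1) := rfl
    have e6 : sg a (m + 1 + 1) = sg a (m + 2) := rfl
    have e7 : a (m + 1 + 1) = a (m + 2) := rfl
    omega
  · rintro ⟨s, hs, hsum⟩
    have h4 : s ⊆ (range (m + 2)).image a := by
      intro x hx
      apply mem_of_lt hm (hs x hx)
      have : x ≤ ∑ x ∈ s, x := single_le_sum (f := fun x => x) (fun _ _ => Nat.zero_le _) hx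
      omega
    by_cases h5 : a (m + 1) ∈ s
    · apply h3
      refine ⟨s.erase (a (m + 1)), fun x hx => hs x (mem_of_mem_erase hx), ?_⟩
      have := add_sum_erase s (fun x => x) h5
      omega
    · have h6 : s ⊆ (range (m + 1)).image a := by
        intro x hx
        have h7 := h4 hx
        rw [mem_image] at h7 ⊢
        obtain ⟨k, hk, rfl⟩ := h7
        refine ⟨k, ?_, rfl⟩
        rw [mem_range] at *
        rcases Nat.lt_or_ge k (m + 1) with h | h
        · exact h
        · have : k = m + 1 := by omega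
          subst this
          exact absurd hx h5
      have h7 : ∑ x ∈ s, x ≤ sg a (m + 1) := sum_le_sum_of_subset h6
      omega

theorem many (hm : Monotone a) (hf : ∀ n, a n + a (n + 1) ≤ a (n + 2)) {m₀ : ℕ}
    (h : 1 + sg a m₀ < a m₀) (N : ℕ) :
    ∃ m y, N ≤ y ∧ y < a m ∧ sg a (m + 1) < y + a (m + 1) ∧ ¬ Rep a y := by
  induction N with
  | zero =>
    obtain ⟨h1, h2, h3⟩ := start hm h
    exact ⟨m₀, a m₀ - 1, Nat.zero_le _, h1, h2, h3⟩
  | succ N ih =>
    obtain ⟨m, y, h0, h1, h2, h3⟩ := ih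
    obtain ⟨e1, e2, e3⟩ := chain hm hf h1 h2 h3
    have := hm (Nat.le_succ m)
    simp only [Nat.succ_eq_add_one] at this
    exact ⟨m + 2, y + a (m + 1), by omega, e1, e2, e3⟩

theorem brown_aux (h : ∀ n, a n ≤ 1 + sg a n) (n : ℕ) :
    ∀ y ≤ sg a n, ∃ s ⊆ (range n).image a, ∑ x ∈ s, x = y := by
  induction n with
  | zero =>
    intro y hy
    refine ⟨∅, by simp, ?_⟩
    simp only [sg, range_zero, image_empty, sum_empty] at hy
    simp; omega
  | succ n ih =>
    intro y hy
    have hsub : (range n).image a ⊆ (range (n + 1)).image a :=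
      image_subset_image (range_subset_range.2 (Nat.le_succ n))
    by_cases hc : y ≤ sg a n
    · obtain ⟨s, hs, h1⟩ := ih y hc
      exact ⟨s, hs.trans hsub, h1⟩
    · have h2 : a n ∉ (range n).image a := by
        intro h2
        have : sg a (n + 1) = sg a n := by
          unfold sg
          rw [range_add_one, image_insert, insert_eq_of_mem h2]
        omega
      rw [sg_succ_of_notMem h2] at hy
      have h3 := h n
      obtain ⟨s, hs, h1⟩ := ih (y - a n) (by omega)
      refine ⟨insert (a n) s, ?_, ?_⟩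
      · intro x hx
        rw [mem_insert] at hx
        rcases hx with rfl | hx
        · exact mem_image_of_mem _ (mem_range.2 (Nat.lt_succ_self n))
        · exact hsub (hs hx)
      · rw [sum_insert (fun hx => h2 (hs hx)), h1]
        omega

theorem brown (hu : ∀ N, ∃ n, N ≤ a n) (h : ∀ n, a n ≤ 1 + sg a n) (y : ℕ) : Rep a y := by
  obtain ⟨n, hn⟩ := hu y
  have h1 : a n ≤ sg a (n + 1) :=
    single_le_sum (f := fun x => x) (fun _ _ => Nat.zero_le _)
      (mem_image_of_mem a (mem_range.2 (Nat.lt_succ_self n)))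
  obtain ⟨s, hs, h2⟩ := brown_aux h (n + 1) y (by omega)
  refine ⟨s, fun x hx => ?_, h2⟩
  have := hs hx
  rw [mem_image] at this
  obtain ⟨k, -, rfl⟩ := this
  exact ⟨k, rfl⟩

/-- the main equivalence -/
theorem main (hm : Monotone a) (hf : ∀ n, a n + a (n + 1) ≤ a (n + 2))
    (hu : ∀ N, ∃ n, N ≤ a n) :
    ((∃ N, ∀ y ≥ N, Rep a y) ↔ ∀ n, a n ≤ 1 + sg a n) ∧
      ((∃ N, ∀ y ≥ N, Rep a y) ↔ ∀ y, Rep a y) := by
  have h1 : (∃ N, ∀ y ≥ N, Rep a y) → ∀ n, a n ≤ 1 + sg a n := by
    rintro ⟨N, h⟩ n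
    by_contra hc
    push Not at hc
    obtain ⟨m, y, hy, -, -, h3⟩ := many hm hf hc N
    exact h3 (h y hy)
  have h2 : (∀ n, a n ≤ 1 + sg a n) → ∀ y, Rep a y := fun h y => brown hu h y
  exact ⟨⟨h1, fun h => ⟨0, fun y _ => h2 h y⟩⟩, ⟨fun h => h2 (h1 h), fun h => ⟨0, fun y _ => h y⟩⟩⟩

end Pool.Agent.Y793.Gol
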